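import Mathlib
import Pool.Agent.Helper6.AS.Final

set_option autoImplicit false

namespace Pool.Agent.Results.MP_e0aac0_nt.AlmostAllShifts

/-- The proportion of the `n ≤ N` with `Ω(n + a c) = y c` for all `c`. -/
noncomputable def prob {k : ℕ} (N : ℕ) (a y : Fin k → ℕ) : ℝ :=
  (((Finset.Icc 1 N).filter
    (fun n => ∀ c, ArithmeticFunction.cardFactors (n + a c) = y c)).card : ℝ) / (N : ℝ)

/-- The proportion of the `n ≤ N` with `Ω(n + a c) = y c` for all `c` and `Ω(n + h j) = x j`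
for all `j`. -/
noncomputable def jointProb {k m : ℕ} (N : ℕ) (a : Fin k → ℕ) (h : Fin m → ℕ) (y : Fin k → ℕ)
    (x : Fin m → ℕ) : ℝ :=
  (((Finset.Icc 1 N).filter
    (fun n => (∀ c, ArithmeticFunction.cardFactors (n + a c) = y c) ∧
      ∀ j, ArithmeticFunction.cardFactors (n + h j) = x j)).card : ℝ) / (N : ℝ)

/-- The proportion of the `n ≤ N` with `Ω(n) = x`. -/
noncomputable def law (N x : ℕ) : ℝ :=
  (((Finset.Icc 1 N).filter
    (fun n => ArithmeticFunction.cardFactors n = x)).card : ℝ) / (N : ℝ)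

/-- For all `k`, `m` and `ε > 0` there is `H₀` such that for every `H ≥ H₀` and all `N ≥ N₀(H)`:
for every tuple `a` of `k` distinct shifts in `[0, H]`, the total variation sum
`∑ |jointProb N a h y x - prob N a y ∏ law N (x j)|`, averaged over all `h ∈ [1, H]^m`, is at
most `ε`. -/
theorem result (k m : ℕ) (ε : ℝ) (hε : 0 < ε) :
    ∃ H₀ : ℕ, ∀ H ≥ H₀, ∃ N₀ : ℕ, ∀ N ≥ N₀, ∀ a : Fin k → ℕ, Function.Injective a →
      (∀ c, a c ≤ H) →
        1 / (H : ℝ) ^ m * ∑ h ∈ Fintype.piFinset (fun _ : Fin m => Finset.Icc 1 H),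
          ∑' p : (Fin k → ℕ) × (Fin m → ℕ),
            |jointProb N a h p.1 p.2 - prob N a p.1 * ∏ j, law N (p.2 j)| ≤ ε := by
  obtain ⟨H₀, h₀⟩ := AS.mixed_holds k m ε hε
  refine ⟨H₀, fun H hH => ?_⟩
  obtain ⟨N₀, h₁⟩ := h₀ H hH
  exact ⟨N₀, fun N hN a ha haH => h₁ N hN a ha haH⟩

end Pool.Agent.Results.MP_e0aac0_nt.AlmostAllShifts
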