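import Mathlib
import Pool.Agent.Helper6.IS.FinalI

/-!
# Symmetries of the joint law of `Ω` at consecutive integers and along prime differences
-/

set_option autoImplicit false

namespace Pool.Agent.Results.MP_e0aac0_nt.Isotopy

/-- The mean of `F (Ω(n), Ω(n + d), ..., Ω(n + (k - 1) d))` over `1 ≤ n ≤ M`. -/
noncomputable def progMean (k d M : ℕ) (F : (Fin k → ℕ) → ℝ) : ℝ :=
  1 / (M : ℝ) * ∑ n ∈ Finset.Icc 1 M,
    F (fun i : Fin k => ArithmeticFunction.cardFactors (n + (i : ℕ) * d))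

/-- `s` is added to all entries; the order of the entries is reversed if `rev = true`. -/
def move {k : ℕ} (rev : Bool) (s : ℕ) (ℓ : Fin k → ℕ) : Fin k → ℕ :=
  fun i => (if rev then ℓ (Fin.rev i) else ℓ i) + s

theorem result (k s t : ℕ) (rev : Bool) (ht : 1 ≤ t) (ε : ℝ) (hε : 0 < ε) :
    ∃ C : ℝ, ∀ Y : ℕ, ∃ K₀ N₀ : ℕ, ∀ N K : ℕ, N₀ ≤ N → K₀ ≤ K → K ≤ N →
      ∀ F : (Fin k → ℕ) → ℝ, (∀ ℓ, |F ℓ| ≤ 1) →
        ∃ E : Finset ℕ, (∀ p ∈ E, p.Prime) ∧ ∑ p ∈ E, 1 / (p : ℝ) ≤ C ∧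
          ∀ d d' : ℕ, d ≤ Y → d' ≤ Y → (d = 1 ∨ d.Prime) → (d' = 1 ∨ d'.Prime) →
            d ∉ E → d' ∉ E →
            ∑ M ∈ Finset.Ioc (N / K) N, (1 / (M : ℝ)) *
              |progMean k d M F - progMean k d' (t * M) (fun ℓ => F (move rev s ℓ))| ≤
              ε * Real.log K := by
  obtain ⟨C, hC⟩ := DG.iso_holds k s t rev ht ε hε
  refine ⟨C, fun Y => ?_⟩
  obtain ⟨K₀, N₀, h⟩ := hC Y
  refine ⟨K₀, N₀, fun N K hN hK hKN F hF => ?_⟩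
  obtain ⟨E, hE, hs, hm⟩ := h N K hN hK hKN F hF
  exact ⟨E, fun p hp => (Finset.mem_filter.1 (hE hp)).2, hs, hm⟩

end Pool.Agent.Results.MP_e0aac0_nt.Isotopy
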