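import Mathlib
import Pool.Agent.Helper6.FR.F7Split

/-!
# An arbitrary function of one more coordinate splits off, at all but boundedly many places
-/

set_option autoImplicit false

namespace Pool.Agent.Results.MP_e0aac0_nt.Splitting

/-- The mean of `F ((Ω(n + i))_{i < H}, Ω(n + h))` over `1 ≤ n ≤ M`. -/
noncomputable def consMean (H M : ℕ) (F : (Fin H → ℕ) → ℕ → ℝ) (h : Fin H) : ℝ :=
  1 / (M : ℝ) * ∑ n ∈ Finset.Icc 1 M,
    F (fun i : Fin H => ArithmeticFunction.cardFactors (n + (i : ℕ)))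
      (ArithmeticFunction.cardFactors (n + (h : ℕ)))

/-- The mean of `F ((x i)_{i < H}, Ω(m h))` with `x i = Ω(n + i)` for `i ∈ I` and `x i = Ω(m i)` for
`i ∉ I`, where `n` and the `m i` are independent and uniform in `{1, ..., M}`. -/
noncomputable def mixedMean (H M : ℕ) (I : Finset (Fin H)) (F : (Fin H → ℕ) → ℕ → ℝ)
    (h : Fin H) : ℝ :=
  1 / (M : ℝ) * ∑ n ∈ Finset.Icc 1 M, (1 / (M : ℝ) ^ H *
    ∑ m ∈ Fintype.piFinset (fun _ : Fin H => Finset.Icc 1 M),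
      F (fun i : Fin H => if i ∈ I then ArithmeticFunction.cardFactors (n + (i : ℕ))
        else ArithmeticFunction.cardFactors (m i)) (ArithmeticFunction.cardFactors (m h)))

/-- The values of `F` do not depend on the coordinates of the first argument outside `S`. -/
def DependsOn (H : ℕ) (S : Finset (Fin H)) (F : (Fin H → ℕ) → ℕ → ℝ) : Prop :=
  ∀ (ℓ ℓ' : Fin H → ℕ) (x : ℕ), (∀ i ∈ S, ℓ i = ℓ' i) → F ℓ x = F ℓ' x

/-- `F` changes by at most `δ` when a coordinate in `J` of the first argument is increased by `1`. -/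
def SlowIn (H : ℕ) (J : Finset (Fin H)) (δ : ℝ) (F : (Fin H → ℕ) → ℕ → ℝ) : Prop :=
  ∀ (ℓ : Fin H → ℕ) (x : ℕ), ∀ i ∈ J, |F (Function.update ℓ i (ℓ i + 1)) x - F ℓ x| ≤ δ

theorem result (k : ℕ) (ε : ℝ) (hε : 0 < ε) :
    ∃ B : ℕ, ∀ H : ℕ, ∃ δ : ℝ, 0 < δ ∧ ∃ K₀ N₀ : ℕ, ∀ N K : ℕ, N₀ ≤ N → K₀ ≤ K → K ≤ N →
      ∀ I J : Finset (Fin H), I.card = k → Disjoint I J →
      ∀ F : (Fin H → ℕ) → ℕ → ℝ, (∀ ℓ x, |F ℓ x| ≤ 1) → DependsOn H (I ∪ J) F → SlowIn H J δ F →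
        ∃ E : Finset (Fin H), E.card ≤ B ∧ ∀ h : Fin H, h ∉ I ∪ J → h ∉ E →
          ∑ M ∈ Finset.Ioc (N / K) N, (1 / (M : ℝ)) *
            |consMean H M F h - mixedMean H M I F h| ≤ ε * Real.log K := by
  classical
  obtain ⟨B, hB⟩ := FR.split k ε hε
  refine ⟨B, fun H => ?_⟩
  obtain ⟨δ, hδ, K₀, N₀, h⟩ := hB H
  refine ⟨δ, hδ, K₀, N₀, fun N K hN hK hKN I J hI hIJ F hF hd hs => ?_⟩
  refine ⟨_, h N K hN hK hKN I J hI hIJ F hF hd hs, fun h' hh' hE => ?_⟩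
  by_contra hc
  exact hE (Finset.mem_filter.2 ⟨Finset.mem_univ _, hh', lt_of_not_ge hc⟩)

end Pool.Agent.Results.MP_e0aac0_nt.Splitting
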