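import Mathlib
import Pool.Agent.Helper6.DG.FinalN

/-!
# Q1 for functions of `k` coordinates which are arbitrary in two of them and slowly varying in the
others
-/

set_option autoImplicit false

namespace Pool.Agent.Results.MP_e0aac0_nt.TwoCoordinates

/-- The mean of `F (Ω(n), Ω(n + 1), ..., Ω(n + k - 1))` over `1 ≤ n ≤ M`. -/
noncomputable def consMean (k M : ℕ) (F : (Fin k → ℕ) → ℝ) : ℝ :=
  1 / (M : ℝ) * ∑ n ∈ Finset.Icc 1 M,
    F (fun i : Fin k => ArithmeticFunction.cardFactors (n + (i : ℕ)))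

/-- The mean of `F (Ω(m₁), ..., Ω(m_k))` over independent uniform `m₁, ..., m_k ≤ M`. -/
noncomputable def indepMean (k M : ℕ) (F : (Fin k → ℕ) → ℝ) : ℝ :=
  1 / (M : ℝ) ^ k * ∑ m ∈ Fintype.piFinset (fun _ : Fin k => Finset.Icc 1 M),
    F (fun i : Fin k => ArithmeticFunction.cardFactors (m i))

/-- `F` changes by at most `δ` when a coordinate different from `a` and `b` is increased by `1`. -/
def SlowExcept (k : ℕ) (a b : Fin k) (δ : ℝ) (F : (Fin k → ℕ) → ℝ) : Prop :=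
  ∀ (ℓ : Fin k → ℕ) (i : Fin k), i ≠ a → i ≠ b →
    |F (Function.update ℓ i (ℓ i + 1)) - F ℓ| ≤ δ

theorem result (k : ℕ) (a b : Fin k) (hab : a ≠ b) (ε : ℝ) (hε : 0 < ε) :
    ∃ δ : ℝ, 0 < δ ∧ ∃ K₀ N₀ : ℕ, ∀ N K : ℕ, N₀ ≤ N → K₀ ≤ K → K ≤ N →
      ∀ F : (Fin k → ℕ) → ℝ, (∀ ℓ, |F ℓ| ≤ 1) → SlowExcept k a b δ F →
        ∑ M ∈ Finset.Ioc (N / K) N, (1 / (M : ℝ)) * |consMean k M F - indepMean k M F| ≤
          ε * Real.log K := by
  have key : ∀ x y : Fin k, x < y → ∃ δ : ℝ, 0 < δ ∧ ∃ K₀ N₀ : ℕ, ∀ N K : ℕ, N₀ ≤ N →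
      K₀ ≤ K → K ≤ N → ∀ F : (Fin k → ℕ) → ℝ, (∀ ℓ, |F ℓ| ≤ 1) → SlowExcept k x y δ F →
        ∑ M ∈ Finset.Ioc (N / K) N, (1 / (M : ℝ)) * |consMean k M F - indepMean k M F| ≤
          ε * Real.log K := by
    intro x y hxy
    obtain ⟨δ, hδ, K₀, N₀, h⟩ := DG.twoSet_holds k x.1 y.1 hxy y.2 ε hε
    refine ⟨δ, hδ, K₀, N₀, fun N K hN hK hKN F hF hs => ?_⟩
    exact h N K hN hK hKN F hF (fun ℓ i hi => hs ℓ i
      (fun hi2 => hi (by rw [hi2]; exact Finset.mem_insert_self _ _))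
      (fun hi2 => hi (by rw [hi2]; exact Finset.mem_insert_of_mem (Finset.mem_singleton_self _))))
  rcases lt_or_gt_of_ne hab with h | h
  · exact key a b h
  · obtain ⟨δ, hδ, K₀, N₀, h1⟩ := key b a h
    exact ⟨δ, hδ, K₀, N₀, fun N K hN hK hKN F hF hs => h1 N K hN hK hKN F hF
      (fun ℓ i h2 h3 => hs ℓ i h3 h2)⟩

end Pool.Agent.Results.MP_e0aac0_nt.TwoCoordinates
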